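import Pool.Agent.X321.FR.Main
set_option autoImplicit false

/-!
The regulators on the curves `(1 - y^N) (1 - x^M) (1 - (x/e)^M) = 1` over number fields, `e` a unit:
all of them up to an error which does not depend on the field and the unit, and the leading term of
the determinant. For `M = N = 2` and real quadratic fields these are curves of genus `2` with the
full number of classes.
-/

namespace Pool.Agent.Results.MP_0a9c3b_nt.GenusTwoFullRankAsymptotics

open Pool.Agent.TH826.MK (symb Torus)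

open Pool.Agent.TH826.MH (wt)

open Pool.Agent.TH265.V

universe u v

/-- The main term of the regulator of the symbol with the index `s = (i', j')` on the loop with the
index `t = (i, j)`: it is `0` for `i ≠ i'`, and for `i = i'` it is
`- 2 π M log |σ e|` (loops over `σ`) or `2 π M log |τ e|` (loops over `τ`) if `j = j'`, the negative
of this if `j = j' + 1`, and zero otherwise. -/
noncomputable def mainTerm {K : Type*} [Field K] (p q : ℕ) (σ τ : K →+* ℂ) (e : K)
    (t s : Fin (2 * q + 1 + 1) × Fin p) : ℝ :=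
  if s.1 = t.1 then
    (if (t.1 : ℕ) ≤ q then 2 * Real.pi * (q + 1) * Real.log ‖τ e‖ else
      -(2 * Real.pi * (q + 1) * Real.log ‖σ e‖)) * wt t.2 s.2
  else 0

/-- the matrix of the regulators of the symbols on the loops `Γ_t` -/
noncomputable def regMatrix {K : Type u} [Field K] (p q : ℕ) (ζ ω e : K)
    (Γ : Fin (2 * q + 1 + 1) × Fin p → Torus (Opn p ζ (al q ω e)) 1) :
    Matrix (Fin (2 * q + 1 + 1) × Fin p) (Fin (2 * q + 1 + 1) × Fin p) ℝ :=
  Matrix.of fun t s => (Γ t).reg (symb (sym p ζ (al q ω e) s))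

/-- `((2 π M)² log |σ e| log (1 / |τ e|)) ^ (M (N - 1))` -/
noncomputable def detTerm {K : Type u} [Field K] (p q : ℕ) (σ τ : K →+* ℂ) (e : K) : ℝ :=
  ((2 * Real.pi * (q + 1)) ^ 2 * (Real.log ‖σ e‖ * -Real.log ‖τ e‖)) ^ ((q + 1) * p)

/-- There are `2 M (N - 1)` loops, half of them over `τ` and half of them over `σ`, on which the
regulators differ from the main terms by at most `B`, and the determinant of the regulators is
`((2 π M)² log |σ e| log (1 / |τ e|)) ^ (M (N - 1))` up to a factor between `1 - ε` and `1 + ε`. -/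
def Asymptotics {K : Type u} [Field K] (p q : ℕ) (σ τ : K →+* ℂ) (ζ ω e : K) (B ε : ℝ) : Prop :=
  ∃ Γ : Fin (2 * q + 1 + 1) × Fin p → Torus (Opn p ζ (al q ω e)) 1,
    (∀ t θ x, (Γ t).e θ (cst0 p ζ (al q ω e) x) = pls q σ τ t.1 x) ∧
    (∀ t s, |regMatrix p q ζ ω e Γ t s - mainTerm p q σ τ e t s| ≤ B) ∧
    |(regMatrix p q ζ ω e Γ).det / detTerm p q σ τ e - 1| ≤ ε

/-- Let `N = p + 1 ≥ 2` and `M = q + 1 ≥ 2`. There is a constant `B`, and for every `ε > 0` there is a
constant `c > 1`, both depending on `M` and `N` but not on the number field, such that the following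
holds. Let `K` be a number field with a primitive `N`-th root of unity `ζ` and a primitive `M`-th root
of unity `ω`, let `σ` and `τ` be complex embeddings of `K` and let `e` be a unit of the ring of
integers of `K` with `|σ e| ≥ c` and `|τ e| ≤ 1 / c`. Then the `2 M (N - 1)` symbols
`{(y - ζ^j) / (y - ζ^(j+1)), (x - a) / x}`, `0 ≤ j < N - 1`, `a = ω^k` or `a = ω^k e`, on the open part
`x ≠ 0` of the curve `(1 - y^N) (1 - x^M) (1 - (x/e)^M) = 1` are unramified at all discrete valuations
of the function field, and there are `2 M (N - 1)` loops in the complex points, half of them over `τ`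
and half of them over `σ`, such that every regulator of a symbol on a loop differs by at most `B` from
its main term (`mainTerm`; it is a multiple of `log |σ e|` or `log |τ e|`), and the determinant of
the regulators is `((2 π M)² log |σ e| log (1 / |τ e|)) ^ (M (N - 1))` up to a factor between `1 - ε`
and `1 + ε`. For every unit `e₀` which is not a root of unity there are `σ` and `τ` such that
`e = e₀^m` satisfies the condition for all large `m`.

For `M = N = 2` the curve has genus `2`, and if `K` is a real quadratic field and `e₀ > 1` a unit, the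
determinant of the regulators of the `4 = g [K : ℚ]` symbols for `e = e₀^m` is
`((4 π m log e₀)²)² (1 + o(1))` for `m → ∞`. -/
theorem result (p q : ℕ) (hp : 1 ≤ p) (_hq : 1 ≤ q) :
    ∃ B : ℝ, 0 ≤ B ∧ ∀ ε : ℝ, 0 < ε → ∃ c : ℝ, 1 < c ∧
      (∀ (K : Type u) [Field K] [NumberField K] (σ τ : K →+* ℂ) (ζ ω e : K),
        IsPrimitiveRoot ζ (p + 1) → IsPrimitiveRoot ω (q + 1) → IsIntegral ℤ e →
        IsIntegral ℤ e⁻¹ → c ≤ ‖σ e‖ → ‖τ e‖ * c ≤ 1 →
        UnramifiedSymbols.{u, v} p ζ (al q ω e) ∧ Asymptotics p q σ τ ζ ω e B ε) ∧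
      ∀ (K : Type u) [Field K] [NumberField K] (e₀ : K), IsIntegral ℤ e₀ → IsIntegral ℤ e₀⁻¹ →
        e₀ ≠ 0 → (∀ n : ℕ, 0 < n → e₀ ^ n ≠ 1) →
        ∃ (σ τ : K →+* ℂ) (M : ℕ), ∀ m ≥ M, c ≤ ‖σ (e₀ ^ m)‖ ∧ ‖τ (e₀ ^ m)‖ * c ≤ 1 := by
  obtain ⟨c1, hc1, h1, -⟩ := main.{u, v} p q hp
  obtain ⟨B, hB, h⟩ := Pool.Agent.X321.FR.exists_main.{u} p q
  refine ⟨B, hB, fun ε hε => ?_⟩
  obtain ⟨c2, hc2, h2⟩ := h ε hε
  refine ⟨max c1 c2, lt_of_lt_of_le hc1 (le_max_left _ _), ?_, fun K _ _ e₀ he he' he0 hne =>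
    Pool.Agent.TH265.U.exists_pow he he' hne he0 _⟩
  intro K _ _ σ τ ζ ω e hζ hω he he' hσ hτ
  refine ⟨(h1 K σ τ ζ ω e hζ hω he he' ((le_max_left _ _).trans hσ)
    ((mul_le_mul_of_nonneg_left (le_max_left _ _) (norm_nonneg _)).trans hτ)).2.2.2.1, ?_⟩
  obtain ⟨Γ, g1, g2, g3⟩ := h2 σ τ ζ ω e hζ hω ((le_max_right _ _).trans hσ)
    ((mul_le_mul_of_nonneg_left (le_max_right _ _) (norm_nonneg _)).trans hτ)
  refine ⟨Γ, g1, fun t s => ?_, g3⟩
  have h5 := g2 t s
  change |(Γ t).reg (symb (sym p ζ (al q ω e) s)) - mainTerm p q σ τ e t s| ≤ B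
  refine le_trans (le_of_eq ?_) h5
  congr 1
  unfold mainTerm Pool.Agent.X321.FR.W Pool.Agent.X321.FR.ht
  rw [Matrix.of_apply]
  split_ifs <;> ring

end Pool.Agent.Results.MP_0a9c3b_nt.GenusTwoFullRankAsymptotics
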