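import Pool.Agent.X232.CF.G.Main
set_option autoImplicit false

/-!
Beilinson's regulator for `K_2` of curves of genus two over real quadratic fields: on the curves
`(1 - y²) (1 - x²) (1 - (x/e)²) = 1`, for all but finitely many units `e`, the regulator is an
isomorphism onto `ℝ⁴` on the part of the integral motivic cohomology which is generated by the
symbols of the functions without zeros and poles on the part `x ≠ 0` of the affine curve.
-/

namespace Pool.Agent.Results.MP_0a9c3b_nt.GenusTwoIsomorphism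

open NumberField

open Pool.Agent.TH826.MK (Torus)

open Pool.Agent.TH826.MH (eqn)

open Pool.Agent.TH265.V (al lm rts Opn cst0 poly SmoothOff)

open Pool.Agent.X232.CF (IsoModConstants)

/-- The coordinate ring of the part `x ≠ 0` of the affine curve
`λ (y - 1) (y + 1) (x - 1) (x + 1) (x - e) (x + e) = 1`, `λ = - 1/e²`, that is, of the curve
`(1 - y²) (1 - x²) (1 - (x/e)²) = 1`. -/
abbrev Ring {K : Type*} [Field K] (e : K) : Type _ := Opn 1 (-1) (al 1 (-1) e)

/-- The real embedding `s`, with values in the field of complex numbers. -/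
noncomputable def cx {K : Type*} [Field K] (s : K →+* ℝ) : K →+* ℂ := Complex.ofRealHom.comp s

/-- The loop lies in the complex points of the curve over the embedding `s`. -/
def Over {K : Type*} [Field K] (s : K →+* ℂ) {e : K} (Γ : Torus (Ring e) 1) : Prop :=
  ∀ θ (x : K), Γ.e θ (cst0 1 (-1) (al 1 (-1) e) x) = s x

/-- The assertions on the curve with the parameter `e`, for two embeddings `s 0` and `s 1`: the
equation of the curve is `(1 - y²) (1 - x²) (1 - (x/e)²) = 1`, its part `x ≠ 0` is integral and smooth,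
and for its function field `L` `IsoModConstants` holds with four types of loops, two over each of the
two embeddings. -/
def Assertions.{u, v} {K : Type u} [Field K] (s : Fin 2 → (K →+* ℂ)) (e : K) : Prop :=
  eqn (lm (al 1 (-1) e)) (rts 1 (-1) (al 1 (-1) e)) = poly 1 1 e ∧ IsDomain (Ring e) ∧
    (∀ ρ : K →+* ℂ, SmoothOff (poly 1 1 e) ρ) ∧
    ∀ (L : Type v) [Field L] [Algebra (Ring e) L] [IsFractionRing (Ring e) L],
      IsoModConstants (cst0 1 (-1) (al 1 (-1) e)) L
        (fun (t : Fin 2 × Fin 2) (Γ : Torus (Ring e) 1) => Over (s t.1) Γ)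

/-- There is a constant `c ≥ 2` with the following properties.

(1) Let `K` be a number field with complex embeddings `s 0` and `s 1`, and let `e` be a unit of the
ring of integers with `|s 0 e| ≥ c`, `|s 1 e| ≤ 1/c` such that `-(1 + e²)` is not a square in `K`. Let
`A` be the coordinate ring of the part `x ≠ 0` of the curve `(1 - y²) (1 - x²) (1 - (x/e)²) = 1` and
let `L` be its field of fractions. The elements of `K_2(L) ⊗ ℚ` which come from symbols of units of
`A` and are unramified over `K` are integral modulo `K_2(K) ⊗ ℚ`, they form modulo `K_2(K) ⊗ ℚ` a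
space of dimension exactly `4`, and the regulator, for two suitable loops over each of the two
embeddings, gives an isomorphism of this space, tensored with `ℝ`, with `ℝ⁴`.

(2) Let `K` be a real quadratic field with the embeddings `s 0 ≠ s 1 : K → ℝ`. These assertions hold
for every unit `e` with `|s 0 e| ≥ c` or `|s 1 e| ≥ c`, hence for all but finitely many units `e`. -/
theorem result.{u, v} : ∃ c : ℝ, 2 ≤ c ∧
    (∀ (K : Type u) [Field K] [NumberField K] (s : Fin 2 → (K →+* ℂ)) (e : K), IsIntegral ℤ e →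
      IsIntegral ℤ e⁻¹ → c ≤ ‖s 0 e‖ → ‖s 1 e‖ * c ≤ 1 → (∀ a : K, a ^ 2 ≠ -(1 + e ^ 2)) →
      Assertions.{u, v} s e) ∧
    (∀ (K : Type u) [Field K] [NumberField K], Module.finrank ℚ K = 2 →
      ∀ s : Fin 2 → (K →+* ℝ), s 0 ≠ s 1 →
        (∀ e : (𝓞 K)ˣ, c ≤ |s 0 (e : K)| ∨ c ≤ |s 1 (e : K)| →
          Assertions.{u, v} (fun l => cx (s l)) (e : K)) ∧
        {e : (𝓞 K)ˣ | ¬ Assertions.{u, v} (fun l => cx (s l)) (e : K)}.Finite) := by
  obtain ⟨c, hc, H⟩ := Pool.Agent.X232.CF.G.iso_G2.{u, v}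
  have key : ∀ (K : Type u) [Field K] [NumberField K] (s : Fin 2 → (K →+* ℂ)) (e : K),
      IsIntegral ℤ e → IsIntegral ℤ e⁻¹ → c ≤ ‖s 0 e‖ → ‖s 1 e‖ * c ≤ 1 →
      (∀ a : K, a ^ 2 ≠ -(1 + e ^ 2)) → Assertions.{u, v} s e ∧
        Assertions.{u, v} (fun l => s (Equiv.swap 0 1 l)) e := by
    intro K _ _ s e ie ie' hσ hτ hns
    have he : e ≠ 0 := by
      rintro rfl
      rw [map_zero, norm_zero] at hσ
      linarith
    have h1 : 1 < ‖s 0 e‖ := by linarith
    have h2 : e ^ (1 + 1) ≠ -1 := by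
      intro h
      have h3 := congrArg (fun x => ‖s 0 x‖) h
      simp only [map_pow, norm_pow, map_neg, map_one, norm_neg, norm_one] at h3
      exact absurd h3 (one_lt_pow₀ h1 (by decide)).ne'
    have h3 := Pool.Agent.TH265.V.eqn_al (p := 1) (q := 1) (e := e)
      Pool.Agent.X232.CF.G.prim_neg_one Pool.Agent.X232.CF.G.prim_neg_one he
    have h4 := Pool.Agent.X232.CF.G.dom_G he (s 0) h1 hns
    have h5 : ∀ ρ : K →+* ℂ, SmoothOff (poly 1 1 e) ρ := fun ρ =>
      Pool.Agent.TH265.V.smoothOff h2 ρ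
    exact ⟨⟨h3, h4, h5, fun L _ _ _ => (H s e ie ie' hσ hτ hns L).1⟩,
      ⟨h3, h4, h5, fun L _ _ _ => (H s e ie ie' hσ hτ hns L).2⟩⟩
  refine ⟨c, hc, fun K _ _ s e ie ie' hσ hτ hns => (key K s e ie ie' hσ hτ hns).1, ?_⟩
  intro K _ _ hK s hs
  have hall : ∀ e : (𝓞 K)ˣ, c ≤ |s 0 (e : K)| ∨ c ≤ |s 1 (e : K)| →
      Assertions.{u, v} (fun l => cx (s l)) (e : K) := by
    intro e he
    have ie : IsIntegral ℤ (e : K) := RingOfIntegers.isIntegral_coe _
    have ie' : IsIntegral ℤ (e : K)⁻¹ := by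
      have h4 : ((e⁻¹ : (𝓞 K)ˣ) : K) = (e : K)⁻¹ := by
        refine eq_inv_of_mul_eq_one_left ?_
        rw [← map_mul, ← Units.val_mul, inv_mul_cancel, Units.val_one, map_one]
      rw [← h4]
      exact RingOfIntegers.isIntegral_coe _
    have hm := Pool.Agent.TH690.UE.mul_eq hK hs e
    have hn : ∀ l, ‖cx (s l) (e : K)‖ = |s l (e : K)| := fun l => Complex.norm_real _
    have hns : ∀ a : K, a ^ 2 ≠ -(1 + (e : K) ^ 2) := by
      intro a ha
      have h := congrArg (s 0) ha
      rw [map_pow, map_neg, map_add, map_one, map_pow] at h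
      nlinarith [sq_nonneg (s 0 a), sq_nonneg (s 0 (e : K))]
    rcases he with he | he
    · refine (key K (fun l => cx (s l)) e ie ie' ?_ ?_ hns).1
      · show c ≤ ‖cx (s 0) (e : K)‖
        rw [hn]
        exact he
      · show ‖cx (s 1) (e : K)‖ * c ≤ 1
        rw [hn]
        nlinarith [abs_nonneg (s 1 (e : K))]
    · have h := (key K (fun l => cx (s (Equiv.swap 0 1 l))) e ie ie' ?_ ?_ hns).2
      · simp only [Equiv.swap_apply_self] at h
        exact h
      · show c ≤ ‖cx (s (Equiv.swap 0 1 0)) (e : K)‖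
        rw [hn, Equiv.swap_apply_left]
        exact he
      · show ‖cx (s (Equiv.swap 0 1 1)) (e : K)‖ * c ≤ 1
        rw [hn, Equiv.swap_apply_right]
        nlinarith [abs_nonneg (s 0 (e : K))]
  refine ⟨hall, ?_⟩
  classical
  have hfin := Embeddings.finite_of_norm_le K ℂ c
  refine Set.Finite.subset (hfin.preimage (f := fun e : (𝓞 K)ˣ => (e : K)) ?_) ?_
  · intro a _ b _ hab
    exact Units.ext (RingOfIntegers.coe_injective hab)
  · intro e he
    have h1 : ¬ (c ≤ |s 0 (e : K)| ∨ c ≤ |s 1 (e : K)|) := fun h => he (hall e h)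
    push Not at h1
    refine ⟨RingOfIntegers.isIntegral_coe _, fun φ => ?_⟩
    have h2 : φ.toRatAlgHom ∈ (Finset.univ : Finset (K →ₐ[ℚ] ℂ)) := Finset.mem_univ _
    rw [Pool.Agent.TH690.UE.univ_eq hK hs, Finset.mem_insert, Finset.mem_singleton] at h2
    have h3 : ∀ l, φ.toRatAlgHom = (Pool.Agent.TH690.UE.cpx (s l)).toRatAlgHom →
        ‖φ (e : K)‖ = |s l (e : K)| := by
      intro l hl
      have h4 : φ (e : K) = ((s l (e : K) : ℝ) : ℂ) :=
        congrArg (fun f : K →ₐ[ℚ] ℂ => f (e : K)) hl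
      rw [h4]
      exact Complex.norm_real _
    rcases h2 with h2 | h2
    · rw [h3 0 h2]
      exact h1.1.le
    · rw [h3 1 h2]
      exact h1.2.le

end Pool.Agent.Results.MP_0a9c3b_nt.GenusTwoIsomorphism
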