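import Pool.Agent.X321.LG.Main
set_option autoImplicit false

/-!
The regulators on the hyperelliptic curves `z + 1/z = F(x)` of every genus over number fields, where
`F` has special values at `g + 1` points `b_i`: up to an explicit small error, the regulator matrix is
a matrix of logarithms of the differences of the points.
-/

namespace Pool.Agent.Results.MP_0a9c3b_nt.LogarithmicRegulatorMatrix

open Polynomial

open Pool.Agent.TH826.MK (KQ symb Torus Unramified)

open Pool.Agent.TH826.HD (PRing POpen pent toP pcst pDel isDomain_PRing pDel_ne_zero liftP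
  liftP_toP)

open Pool.Agent.TH690.UF (SmoothPts)

universe u v

section defs

variable {K : Type u} [Field K] {g : ℕ}

/-- The symbols `{z, (x - b_m) / (x - b_l)}` are unramified at all discrete valuations of the function
field of the curve `z² - F(x) z + 1 = 0`. -/
def UnramifiedSymbols (F : K[X]) (b : Fin (g + 1) → K) : Prop :=
  ∀ (L : Type v) [Field L] [Algebra (PRing F) L] [IsFractionRing (PRing F) L],
    ∃ f : POpen F b →+* L, (∀ r : PRing F, f (toP F b r) = algebraMap (PRing F) L r) ∧
      ∀ m l, KQ.map 2 f (symb (pent F b m l)) ∈ Unramified L 2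

/-- The logarithm of the absolute value, at the place `s`, of the difference of `b_i` and `b_j`. -/
noncomputable def ld (s : K →+* ℂ) (b : Fin (g + 1) → K) (i j : Fin (g + 1)) : ℝ :=
  Real.log ‖s (b i) - s (b j)‖

/-- The matrix of logarithms: the entry with the indices `l`, `k` (`1 ≤ l, k ≤ g`) is
`log |b_l - b_0| - log |b_l - b_k|` for `k ≠ l`, and
`log |b_l - b_0| + log |μ| + ∑_{j ≠ l} log |b_l - b_j|` for `k = l`, where `μ` is the leading
coefficient of `F`, and all absolute values are at the place `s`. -/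
noncomputable def logMatrix (s : K →+* ℂ) (F : K[X]) (b : Fin (g + 1) → K) :
    Matrix (Fin g) (Fin g) ℝ :=
  Matrix.of fun l k => ld s b l.succ 0 +
    if k = l then Real.log ‖s F.leadingCoeff‖ + ∑ j ∈ Finset.univ.erase l.succ, ld s b l.succ j
    else -ld s b l.succ k.succ

/-- There are `g` loops in the complex points over `s` of the open part `∏ (x - b_m) ≠ 0` of the curve,
such that each regulator of a symbol `{z, (x - b_k) / (x - b_0)}` on a loop differs from
`2 π` times the entry of the matrix of logarithms by at most `E`, and the determinant of the regulators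
is `(2 π) ^ g` times the determinant (`≠ 0`) of the matrix of logarithms, up to a factor between
`1 - ε` and `1 + ε`. -/
def Asymptotics (s : K →+* ℂ) (F : K[X]) (b : Fin (g + 1) → K) (E ε : ℝ) : Prop :=
  (logMatrix s F b).det ≠ 0 ∧
  ∃ Γ : Fin g → Torus (POpen F b) 1,
    (∀ l θ (y : K), (Γ l).e θ (pcst F b y) = s y) ∧
    (∀ l k, |(Γ l).reg (symb (pent F b k.succ 0)) - 2 * Real.pi * logMatrix s F b l k| ≤ E) ∧
    |(Matrix.of fun l k : Fin g => (Γ l).reg (symb (pent F b k.succ 0))).det /
      ((2 * Real.pi) ^ g * (logMatrix s F b).det) - 1| ≤ ε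

theorem logMatrix_eq (s : K →+* ℂ) (F : K[X]) (b : Fin (g + 1) → K) :
    logMatrix s F b = Pool.Agent.X321.LG.lmat (fun i j => Real.log ‖s (b i) - s (b j)‖)
      (Real.log ‖s F.leadingCoeff‖) := by
  ext l k
  unfold logMatrix Pool.Agent.X321.LG.lmat Pool.Agent.X321.LG.lap ld
  rw [Matrix.of_apply, Matrix.of_apply, if_neg (Fin.succ_ne_zero l).symm, sub_neg_eq_add, add_comm]
  refine congrArg₂ (· + ·) ?_ (by rw [norm_sub_rev])
  by_cases h : k = l
  · rw [h, if_pos rfl, if_pos rfl]
  · rw [if_neg h, if_neg fun h' => h (Fin.succ_injective _ h'), norm_sub_rev]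

end defs

/-- For all `g` and `ε > 0` there is a constant `C ≥ 1` (which does not depend on the number field) such
that the following holds. Let `K` be a number field, `s : K → ℂ` an embedding, `F` a polynomial of
degree `g + 1` with the leading coefficient `μ` whose coefficients are algebraic integers of `K`, and
`b_0, ..., b_g` algebraic integers of `K` such that all `F(b_m)` are of the form `ζ + 1/ζ` with roots of
unity `ζ` (in `ℂ`, via `s`), and such that `|s b_i - s b_j| ≥ D > 0` for `i ≠ j` and
`|s μ| D ^ (g + 1) ≥ C`. Then the coordinate ring of the plane curve `z² - F(x) z + 1 = 0` (of genus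
`g`) is a domain, the curve is smooth at its complex points over `s`, the symbols
`{z, (x - b_m) / (x - b_l)}` are unramified, and there are `g` loops in the complex points over `s` such
that the regulators of the `g` symbols `{z, (x - b_k) / (x - b_0)}`, `1 ≤ k ≤ g`, on the loops are equal
to `2 π` times the entries of the matrix of logarithms (`logMatrix`), with an error of at most
`8 π (g + 1) (2 ^ (g + 1) + 2 (g + 1)) / (|s μ| D ^ (g + 1))`; the determinant of the matrix of
logarithms is not zero, and the determinant of the regulators is `(2 π) ^ g` times this determinant,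
up to a factor between `1 - ε` and `1 + ε`. -/
theorem result (g : ℕ) (ε : ℝ) (hε : 0 < ε) : ∃ C : ℝ, 1 ≤ C ∧
    ∀ (K : Type u) [Field K] [NumberField K] (s : K →+* ℂ) (F : K[X]) (b : Fin (g + 1) → K) (D : ℝ),
      (∀ i, IsIntegral ℤ (F.coeff i)) → F.natDegree = g + 1 → (∀ m, IsIntegral ℤ (b m)) →
      (∀ m, ∃ (ζ : ℂ) (k : ℕ), k ≠ 0 ∧ ζ ^ k = 1 ∧ s (F.eval (b m)) = ζ + ζ⁻¹) → 0 < D →
      (∀ i j, i ≠ j → D ≤ ‖s (b i) - s (b j)‖) → C ≤ ‖s F.leadingCoeff‖ * D ^ (g + 1) →
      IsDomain (PRing F) ∧ SmoothPts s F ∧ UnramifiedSymbols.{u, v} F b ∧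
      Asymptotics s F b (8 * Real.pi * (g + 1) * (2 ^ (g + 1) + 2 * (g + 1)) /
        (‖s F.leadingCoeff‖ * D ^ (g + 1))) ε := by
  obtain ⟨C, hC, h⟩ := Pool.Agent.X321.LG.exists_main g ε hε
  refine ⟨C, hC, ?_⟩
  intro K _ _ s F b D hF hdeg hb hζ hD hsep hCN
  have hζ' : ∀ m, ∃ ζ : ℂ, ‖ζ‖ = 1 ∧ s (F.eval (b m)) = ζ + ζ⁻¹ := by
    intro i
    obtain ⟨ζ, k, hk, h1, h2⟩ := hζ i
    refine ⟨ζ, ?_, h2⟩
    have h3 := congrArg norm h1
    rw [norm_pow, norm_one] at h3
    exact (pow_eq_one_iff_of_nonneg (norm_nonneg _) hk).1 h3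
  have hdegF : 0 < F.natDegree := by omega
  obtain ⟨⟨η, H⟩, hdet, Γ, h1, h2, h3⟩ := h s F b D hdeg hζ' hD hsep hCN
  rw [← logMatrix_eq] at hdet h2 h3
  refine ⟨isDomain_PRing hdegF, fun x z h => Pool.Agent.TH826.UH.smooth_of_sepd H h, ?_, hdet, Γ,
    h1, h2, h3⟩
  intro L _ _ _
  have hinj : Function.Injective (algebraMap (PRing F) L) := IsFractionRing.injective _ _
  have hne : algebraMap (PRing F) L (pDel F b) ≠ 0 := by
    rw [Ne, map_eq_zero_iff _ hinj]
    exact pDel_ne_zero b
  exact ⟨liftP (algebraMap (PRing F) L) hne, fun r => liftP_toP _ _ _,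
    fun m l => Pool.Agent.TH826.UH.symb_mem_unramified _ s hF hb m l hζ⟩

end Pool.Agent.Results.MP_0a9c3b_nt.LogarithmicRegulatorMatrix
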