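import Pool.Agent.X321.QF.Two
set_option autoImplicit false

/-!
The regulators on the elliptic curves `z + 1/z = c x² + t` over number fields at two places, up to an
error of the size `1 / |t|`; in particular the full rank regulator determinant over real quadratic
fields for the curves `z + 1/z = w x² - w - 1/w`, `w` a unit.
-/

namespace Pool.Agent.Results.MP_0a9c3b_nt.QuadraticFullRankAsymptotics

open Polynomial

open Pool.Agent.TH826.MK (KQ symb Torus Unramified)

open Pool.Agent.TH826.HD (PRing POpen pent toP pcst pDel isDomain_PRing pDel_ne_zero liftP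
  liftP_toP)

open Pool.Agent.TH690.UE (qf pts Special)

universe u v

section defs

variable {K : Type u} [Field K]

/-- The symbols `{z, (x - b_m) / (x - b_l)}` are unramified at all discrete valuations of the function
field of the curve `z² - F(x) z + 1 = 0`. -/
def UnramifiedSymbols (F : K[X]) (b : Fin 4 → K) : Prop :=
  ∀ (L : Type v) [Field L] [Algebra (PRing F) L] [IsFractionRing (PRing F) L],
    ∃ f : POpen F b →+* L, (∀ r : PRing F, f (toP F b r) = algebraMap (PRing F) L r) ∧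
      ∀ m l, KQ.map 2 f (symb (pent F b m l)) ∈ Unramified L 2

/-- `1` if `p` is not closer to `-q` than to `q` at the place `s`, and `-1` otherwise. -/
noncomputable def side (s : K →+* ℂ) (p q : K) : ℝ :=
  if ‖s p - s q‖ ≤ ‖s p + s q‖ then 1 else -1

/-- `2 π log (4 |t|)` at the place `s` -/
noncomputable def mainTerm (s : K →+* ℂ) (t : K) : ℝ := 2 * Real.pi * Real.log (4 * ‖s t‖)

/-- `24 π / |t|` at the place `s` -/
noncomputable def err (s : K →+* ℂ) (t : K) : ℝ := 24 * Real.pi / ‖s t‖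

/-- the regulators of the symbols `{z, (x - p) / (x + p)}` and `{z, (x - q) / (x + q)}` on two loops
of the curve `z + 1/z = c x² + t` -/
noncomputable def regMatrix {c t p q : K} (Γ : Fin 2 → Torus (POpen (qf c t) (pts p q)) 1) :
    Matrix (Fin 2) (Fin 2) ℝ :=
  Matrix.of fun l k => (Γ l).reg (symb (pent (qf c t) (pts p q) (![0, 2] k) (![1, 3] k)))

/-- There are loops in the complex points over `s_0` and over `s_1` on which the regulators of
`{z, (x - p) / (x + p)}` are `2 π log (4 |s_l t|)` up to an error `≤ 24 π / |s_l t|`, those of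
`{z, (x - q) / (x + q)}` are `side (s_l) 2 π log (4 |s_l t|)` with the same error, and the determinant
is `(side (s_1) - side (s_0)) (2 π log (4 |s_0 t|)) (2 π log (4 |s_1 t|))` up to the error
`2 (A_0 E_1 + A_1 E_0 + E_0 E_1)`, where the `A_l` are the main terms and the `E_l` the errors. -/
def Asymptotics (c t p q : K) (s : Fin 2 → (K →+* ℂ)) : Prop :=
  ∃ Γ : Fin 2 → Torus (POpen (qf c t) (pts p q)) 1,
    (∀ l θ (y : K), (Γ l).e θ (pcst (qf c t) (pts p q) y) = s l y) ∧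
    (∀ l, |regMatrix Γ l 0 - mainTerm (s l) t| ≤ err (s l) t ∧
      |regMatrix Γ l 1 - side (s l) p q * mainTerm (s l) t| ≤ err (s l) t) ∧
    |(regMatrix Γ).det -
        (side (s 1) p q - side (s 0) p q) * (mainTerm (s 0) t * mainTerm (s 1) t)| ≤
      2 * (mainTerm (s 0) t * err (s 1) t + mainTerm (s 1) t * err (s 0) t +
        err (s 0) t * err (s 1) t)

end defs

theorem asymptotics {K : Type u} [Field K] {c t p q : K} {s : Fin 2 → (K →+* ℂ)}
    (hp : ∀ l, Special (s l) (c * p ^ 2 + t)) (hq : ∀ l, Special (s l) (c * q ^ 2 + t))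
    (ht : ∀ l, 5 ≤ ‖s l t‖) : Asymptotics c t p q s := by
  obtain ⟨Γ, h1, h2, h3⟩ := Pool.Agent.X321.QF.exists_two (fun l => (hp l).spc)
    (fun l => (hq l).spc) ht
  exact ⟨Γ, h1, h2, h3⟩

theorem unramified {K : Type u} [Field K] {c t p q : K} (s : K →+* ℂ) (hc : IsIntegral ℤ c)
    (ht : IsIntegral ℤ t) (hp : IsIntegral ℤ p) (hq : IsIntegral ℤ q)
    (sp : Special s (c * p ^ 2 + t)) (sq : Special s (c * q ^ 2 + t)) (hd : c ≠ 0) :
    IsDomain (PRing (qf c t)) ∧ UnramifiedSymbols.{u, v} (qf c t) (pts p q) := by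
  have hdegF : 0 < (qf c t).natDegree := by
    rw [Pool.Agent.TH690.UE.natDegree_qf hd]
    norm_num
  refine ⟨isDomain_PRing hdegF, ?_⟩
  intro L _ _ _
  have hdom : IsDomain (PRing (qf c t)) := isDomain_PRing hdegF
  have hinj : Function.Injective (algebraMap (PRing (qf c t)) L) := IsFractionRing.injective _ _
  have hne : algebraMap (PRing (qf c t)) L (pDel (qf c t) (pts p q)) ≠ 0 := by
    rw [Ne, map_eq_zero_iff _ hinj]
    exact pDel_ne_zero (pts p q)
  refine ⟨liftP (algebraMap (PRing (qf c t)) L) hne, fun r => liftP_toP _ _ _, fun m l =>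
    Pool.Agent.TH826.UH.symb_mem_unramified _ s (Pool.Agent.TH690.UE.integral_qf hc ht)
      (fun i => ?_) m l (fun i => ?_)⟩
  · unfold pts
    fin_cases i
    · exact hp
    · exact hp.neg
    · exact hq
    · exact hq.neg
  · unfold pts
    fin_cases i
    · show ∃ (ζ : ℂ) (k : ℕ), k ≠ 0 ∧ ζ ^ k = 1 ∧ s ((qf c t).eval p) = ζ + ζ⁻¹
      rw [Pool.Agent.TH690.UE.eval_qf]
      exact sp
    · show ∃ (ζ : ℂ) (k : ℕ), k ≠ 0 ∧ ζ ^ k = 1 ∧ s ((qf c t).eval (-p)) = ζ + ζ⁻¹
      rw [Pool.Agent.TH690.UE.eval_qf, neg_sq]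
      exact sp
    · show ∃ (ζ : ℂ) (k : ℕ), k ≠ 0 ∧ ζ ^ k = 1 ∧ s ((qf c t).eval q) = ζ + ζ⁻¹
      rw [Pool.Agent.TH690.UE.eval_qf]
      exact sq
    · show ∃ (ζ : ℂ) (k : ℕ), k ≠ 0 ∧ ζ ^ k = 1 ∧ s ((qf c t).eval (-q)) = ζ + ζ⁻¹
      rw [Pool.Agent.TH690.UE.eval_qf, neg_sq]
      exact sq

/-- *General form.* Let `K` be a number field with the embeddings `s_0`, `s_1` in `ℂ`, and let
`c ≠ 0, t, p, q` be algebraic integers of `K` such that `c p² + t` and `c q² + t` are of the form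
`ζ + 1/ζ` with roots of unity `ζ` and `|s_l t| ≥ 5`. Then the symbols `{z, (x - b) / (x - b')}`,
`b, b' ∈ {± p, ± q}`, on the curve `z + 1/z = c x² + t` are unramified, and the regulators of
`{z, (x - p) / (x + p)}` and `{z, (x - q) / (x + q)}` on a loop over each of the two places are known
up to the error `24 π / |s_l t|` (`Asymptotics`).

*Units.* Let `w` be a unit of a number field `K` and `|s_0 w| ≥ 6`, `|s_1 w| ≤ 1/6`. This applies to
`c = w`, `t = - w - 1/w`, `p = 1 + 1/w`, `q = 1 - 1/w`, and `side (s_0) = 1`, `side (s_1) = -1`; thus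
the determinant of the two regulators on the two loops is
`- 8 π² log (4 |s_0 (w + 1/w)|) log (4 |s_1 (w + 1/w)|)` up to the explicit error which tends to zero if
`|s_0 w|` and `1 / |s_1 w|` tend to infinity at comparable speed. For real quadratic fields this is the
full rank `2 = g [K : ℚ]` of Beilinson's conjecture. For each unit of infinite order the condition is
satisfied by all large powers, for suitable `s_0` and `s_1`. -/
theorem result (K : Type u) [Field K] [NumberField K] :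
    (∀ (c t p q : K) (s : Fin 2 → (K →+* ℂ)), c ≠ 0 → IsIntegral ℤ c → IsIntegral ℤ t →
      IsIntegral ℤ p → IsIntegral ℤ q → (∀ l, Special (s l) (c * p ^ 2 + t)) →
      (∀ l, Special (s l) (c * q ^ 2 + t)) → (∀ l, 5 ≤ ‖s l t‖) →
      IsDomain (PRing (qf c t)) ∧ UnramifiedSymbols.{u, v} (qf c t) (pts p q) ∧
        Asymptotics c t p q s) ∧
    (∀ (w : K) (s : Fin 2 → (K →+* ℂ)), w ≠ 0 → IsIntegral ℤ w → IsIntegral ℤ w⁻¹ →
      6 ≤ ‖s 0 w‖ → ‖s 1 w‖ * 6 ≤ 1 →
      IsDomain (PRing (qf w (-(w + w⁻¹)))) ∧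
        UnramifiedSymbols.{u, v} (qf w (-(w + w⁻¹))) (pts (1 + w⁻¹) (1 - w⁻¹)) ∧
        Asymptotics w (-(w + w⁻¹)) (1 + w⁻¹) (1 - w⁻¹) s ∧
        side (s 0) (1 + w⁻¹) (1 - w⁻¹) = 1 ∧ side (s 1) (1 + w⁻¹) (1 - w⁻¹) = -1) ∧
    ∀ e : K, e ≠ 0 → IsIntegral ℤ e → IsIntegral ℤ e⁻¹ → (∀ n : ℕ, 0 < n → e ^ n ≠ 1) →
      ∃ (σ τ : K →+* ℂ) (M : ℕ), ∀ m ≥ M, 6 ≤ ‖σ (e ^ m)‖ ∧ ‖τ (e ^ m)‖ * 6 ≤ 1 := by
  refine ⟨?_, ?_, fun e he0 he he' hne => Pool.Agent.TH265.U.exists_pow he he' hne he0 6⟩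
  · intro c t p q s hc0 hc ht hp hq sp sq h5
    obtain ⟨h1, h2⟩ := unramified.{u, v} (s 0) hc ht hp hq (sp 0) (sq 0) hc0
    exact ⟨h1, h2, asymptotics sp sq h5⟩
  · intro w s hw0 hw hw' h0 h1
    have v1 : w * (1 + w⁻¹) ^ 2 + -(w + w⁻¹) = 2 := by
      field_simp
      ring
    have v2 : w * (1 - w⁻¹) ^ 2 + -(w + w⁻¹) = -2 := by
      field_simp
      ring
    have sp : ∀ r : K →+* ℂ, Special r (w * (1 + w⁻¹) ^ 2 + -(w + w⁻¹)) := fun r => by
      rw [v1]
      exact ⟨1, 1, one_ne_zero, one_pow 1, by rw [map_ofNat]; norm_num⟩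
    have sq : ∀ r : K →+* ℂ, Special r (w * (1 - w⁻¹) ^ 2 + -(w + w⁻¹)) := fun r => by
      rw [v2]
      exact ⟨-1, 2, two_ne_zero, by norm_num, by rw [map_neg, map_ofNat]; norm_num⟩
    have hT : ∀ r : K →+* ℂ, 6 ≤ ‖r w‖ ∨ ‖r w‖ * 6 ≤ 1 → 5 ≤ ‖r (-(w + w⁻¹))‖ := by
      intro r hr
      have hr0 : 0 < ‖r w‖ := norm_pos_iff.2 ((_root_.map_ne_zero r).2 hw0)
      rw [map_neg, norm_neg, map_add, map_inv₀]
      rcases hr with hr | hr
      · have e1 := norm_sub_norm_le (r w) (-(r w)⁻¹)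
        rw [norm_neg, sub_neg_eq_add, norm_inv] at e1
        have e2 : ‖r w‖⁻¹ ≤ 6⁻¹ := inv_anti₀ (by norm_num) hr
        have e3 : (6 : ℝ)⁻¹ ≤ 1 := by norm_num
        linarith
      · have e1 := norm_sub_norm_le (r w)⁻¹ (-(r w))
        rw [norm_neg, sub_neg_eq_add, norm_inv, add_comm] at e1
        have e2 : 6 ≤ ‖r w‖⁻¹ := by
          rw [← one_div, le_div_iff₀ hr0]
          linarith
        linarith
    obtain ⟨g1, g2⟩ := unramified.{u, v} (s 0) hw (hw.add hw').neg (isIntegral_one.add hw')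
      (isIntegral_one.sub hw') (sp (s 0)) (sq (s 0)) hw0
    refine ⟨g1, g2, asymptotics (fun l => sp _) (fun l => sq _) fun l => ?_, ?_, ?_⟩
    · fin_cases l
      · exact hT _ (Or.inl h0)
      · exact hT _ (Or.inr h1)
    all_goals
      have hr : ∀ r : K →+* ℂ, ‖r (1 + w⁻¹) - r (1 - w⁻¹)‖ = 2 * ‖r w‖⁻¹ ∧
          ‖r (1 + w⁻¹) + r (1 - w⁻¹)‖ = 2 := by
        intro r
        constructor
        · have e1 : r (1 + w⁻¹) - r (1 - w⁻¹) = 2 * (r w)⁻¹ := by
            rw [map_add, map_sub, map_one, map_inv₀]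
            ring
          rw [e1, norm_mul, norm_inv, Complex.norm_ofNat]
        · have e1 : r (1 + w⁻¹) + r (1 - w⁻¹) = 2 := by
            rw [map_add, map_sub, map_one]
            ring
          rw [e1, Complex.norm_ofNat]
      unfold side
    · rw [(hr _).1, (hr _).2, if_pos]
      have e2 : ‖(s 0) w‖⁻¹ ≤ 6⁻¹ := inv_anti₀ (by norm_num) h0
      have e3 : (6 : ℝ)⁻¹ ≤ 1 := by norm_num
      linarith
    · rw [(hr _).1, (hr _).2, if_neg]
      have hr0 : 0 < ‖(s 1) w‖ := norm_pos_iff.2 ((_root_.map_ne_zero _).2 hw0)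
      have e2 : 6 ≤ ‖(s 1) w‖⁻¹ := by
        rw [← one_div, le_div_iff₀ hr0]
        linarith
      linarith

end Pool.Agent.Results.MP_0a9c3b_nt.QuadraticFullRankAsymptotics
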